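import Pool.Agent.Q24.SU.Ten
import Pool.Agent.Q41.SP.Stm1

/-!
# SP-P4: the twisted norm polynomial (helper174)
-/

set_option autoImplicit false
set_option linter.unusedSectionVars false

namespace Pool.Agent.Q174.SP

open Finset Polynomial Pool.Agent.Q41.SU Pool.Agent.Q41.SP Pool.Agent.Q24.SU TensorProduct

universe u

/-! ### powers -/

theorem charE (k E : Type u) [Field k] [Field E] [Algebra k E] (l : ℕ) [CharP k l] : CharP E l :=
  charP_of_injective_algebraMap (algebraMap k E).injective l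

theorem pw_add {E : Type u} [Field E] (l r : ℕ) [Fact l.Prime] (h : CharP E l) (x y : E) :
    (x + y) ^ l ^ r = x ^ l ^ r + y ^ l ^ r :=
  add_pow_char_pow x y l r

theorem pw_inj {E : Type u} [Field E] (l r : ℕ) [Fact l.Prime] (hc : CharP E l) {x y : E}
    (h : x ^ l ^ r = y ^ l ^ r) : x = y := by
  have hE : ExpChar E l := ExpChar.prime (Fact.out)
  exact (iterateFrobenius_inj E l r) (by rw [iterateFrobenius_def, iterateFrobenius_def]; exact h)

section frob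
variable {k E : Type u} [Field k] [IsAlgClosed k] [Field E] [Algebra k E] (l r : ℕ)
  [Fact l.Prime] [CharP k l]

omit [CharP k l] in
theorem exists_root (c : k) : ∃ d : k, d ^ l ^ r = c :=
  IsAlgClosed.exists_pow_nat_eq c (pow_pos (Fact.out (p := l.Prime)).pos r)

variable (k) in
/-- the powers of the elements of a subalgebra -/
def frS (S : Subalgebra k E) : Subalgebra k E where
  carrier := {y | ∃ x ∈ S, x ^ l ^ r = y}
  mul_mem' := by
    rintro _ _ ⟨x, hx, rfl⟩ ⟨y, hy, rfl⟩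
    exact ⟨x * y, S.mul_mem hx hy, mul_pow _ _ _⟩
  add_mem' := by
    rintro _ _ ⟨x, hx, rfl⟩ ⟨y, hy, rfl⟩
    exact ⟨x + y, S.add_mem hx hy, pw_add l r (charE k E l) _ _⟩
  algebraMap_mem' := by
    intro c
    obtain ⟨d, hd⟩ := exists_root l r c
    exact ⟨algebraMap k E d, S.algebraMap_mem d, by rw [← map_pow, hd]⟩

theorem frS_mono {S T : Subalgebra k E} (h : S ≤ T) : frS k l r S ≤ frS k l r T := by
  rintro _ ⟨x, hx, rfl⟩
  exact ⟨x, h hx, rfl⟩

variable (k E) in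
/-- Frobenius as a homomorphism to the ring of powers -/
def frH : E →+* frS k l r (⊤ : Subalgebra k E) where
  toFun := fun x => ⟨x ^ l ^ r, x, Algebra.mem_top, rfl⟩
  map_one' := by
    apply Subtype.ext
    exact one_pow _
  map_mul' := fun x y => Subtype.ext (mul_pow x y _)
  map_zero' := by
    apply Subtype.ext
    exact zero_pow (pow_pos (Fact.out (p := l.Prime)).pos r).ne'
  map_add' := fun x y => Subtype.ext (pw_add l r (charE k E l) x y)

variable (k E) in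
/-- Frobenius as an isomorphism onto the ring of powers -/
noncomputable def frE : E ≃+* frS k l r (⊤ : Subalgebra k E) :=
  RingEquiv.ofBijective (frH k E l r)
    ⟨fun _ _ h => pw_inj l r (charE k E l) (congrArg Subtype.val h), fun y => by
      obtain ⟨x, hx, hy⟩ := y.2
      exact ⟨x, Subtype.ext hy⟩⟩

theorem frE_val (x : E) : (frE k E l r x : E) = x ^ l ^ r := rfl

/-- the linear map on the powers defined by a semilinear map -/
noncomputable def bet {A : Type u} [CommRing A] [Algebra k A] (β : E →+* A)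
    (hβ : ∀ c : k, β (algebraMap k E c) = algebraMap k A (c ^ l ^ r)) :
    frS k l r (⊤ : Subalgebra k E) →ₐ[k] A :=
  { (β.comp (frE k E l r).symm.toRingHom) with
    commutes' := by
      intro c
      obtain ⟨d, hd⟩ := exists_root l r c
      have h1 : algebraMap k (frS k l r (⊤ : Subalgebra k E)) c = frE k E l r (algebraMap k E d) := by
        apply Subtype.ext
        rw [frE_val, ← map_pow, hd]
        rfl
      change β ((frE k E l r).symm (algebraMap k (frS k l r (⊤ : Subalgebra k E)) c)) = _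
      rw [h1, RingEquiv.symm_apply_apply, hβ, hd] }

theorem bet_frE {A : Type u} [CommRing A] [Algebra k A] (β : E →+* A)
    (hβ : ∀ c : k, β (algebraMap k E c) = algebraMap k A (c ^ l ^ r)) (x : E) :
    bet l r β hβ (frE k E l r x) = β x := by
  change β ((frE k E l r).symm (frE k E l r x)) = _
  rw [RingEquiv.symm_apply_apply]

end frob

/-! ### the property for two algebras -/

section two
variable {k E₁ E₂ : Type u} [Field k] [CommRing E₁] [Algebra k E₁] [CommRing E₂] [Algebra k E₂]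
  {t₁ : E₁} {t₂ : E₂}

/-- the property of the theorem -/
def Gd2 (t₁ : E₁) (t₂ : E₂) (A₁ A₂ : k[X]) (n : ℕ) (z : E₁ ⊗[k] E₂) : Prop :=
  ∃ M₀ : ℕ, ∀ M ≥ M₀, ∃ F : k[X][X], F.natDegree ≤ M * n ∧ (∀ i, (F.coeff i).natDegree ≤ M * n) ∧
    ev F (t₁ ⊗ₜ[k] (1 : E₂)) ((1 : E₁) ⊗ₜ[k] t₂) =
      ((aeval t₁ A₁ ^ M) ⊗ₜ[k] (aeval t₂ A₂ ^ M)) * z

theorem Gd2_zero (A₁ A₂ : k[X]) (n : ℕ) : Gd2 t₁ t₂ A₁ A₂ n 0 :=
  ⟨0, fun M _ => ⟨0, by simp, by simp, by
    rw [mul_zero]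
    unfold ev
    simp⟩⟩

theorem Gd2_add {A₁ A₂ : k[X]} {n : ℕ} {z z' : E₁ ⊗[k] E₂} (h : Gd2 t₁ t₂ A₁ A₂ n z)
    (h' : Gd2 t₁ t₂ A₁ A₂ n z') : Gd2 t₁ t₂ A₁ A₂ n (z + z') := by
  obtain ⟨M₀, h⟩ := h
  obtain ⟨M₁, h'⟩ := h'
  refine ⟨max M₀ M₁, fun M hM => ?_⟩
  obtain ⟨F, a1, a2, a3⟩ := h M (le_trans (le_max_left _ _) hM)
  obtain ⟨F', b1, b2, b3⟩ := h' M (le_trans (le_max_right _ _) hM)
  refine ⟨F + F', (natDegree_add_le _ _).trans (max_le a1 b1), fun i => ?_, ?_⟩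
  · rw [coeff_add]
    exact (natDegree_add_le _ _).trans (max_le (a2 i) (b2 i))
  · rw [ev_add, a3, b3, mul_add]

theorem Gd2_smul {A₁ A₂ : k[X]} {n : ℕ} {z : E₁ ⊗[k] E₂} (c : k) (h : Gd2 t₁ t₂ A₁ A₂ n z) :
    Gd2 t₁ t₂ A₁ A₂ n (c • z) := by
  obtain ⟨M₀, h⟩ := h
  refine ⟨M₀, fun M hM => ?_⟩
  obtain ⟨F, a1, a2, a3⟩ := h M hM
  refine ⟨C (C c) * F, (natDegree_C_mul_le _ _).trans a1, fun i => ?_, ?_⟩
  · rw [coeff_C_mul]
    exact (natDegree_C_mul_le _ _).trans (a2 i)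
  · rw [ev_smul, a3, mul_smul_comm]

theorem Gd2_tmul {A₁ A₂ : k[X]} {n : ℕ} {v : E₁} {w : E₂}
    (hv : ∃ M₀ : ℕ, ∀ M ≥ M₀, ∃ P : k[X], P.natDegree ≤ M * n ∧ v * aeval t₁ A₁ ^ M = aeval t₁ P)
    (hw : ∃ M₀ : ℕ, ∀ M ≥ M₀, ∃ P : k[X], P.natDegree ≤ M * n ∧ w * aeval t₂ A₂ ^ M = aeval t₂ P) :
    Gd2 t₁ t₂ A₁ A₂ n (v ⊗ₜ[k] w) := by
  obtain ⟨M₀, hv⟩ := hv
  obtain ⟨M₁, hw⟩ := hw
  refine ⟨max M₀ M₁, fun M hM => ?_⟩
  obtain ⟨P, a1, a2⟩ := hv M (le_trans (le_max_left _ _) hM)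
  obtain ⟨Q, b1, b2⟩ := hw M (le_trans (le_max_right _ _) hM)
  refine ⟨C P * Q.map C, ?_, fun i => ?_, ?_⟩
  · exact (natDegree_C_mul_le _ _).trans ((natDegree_map_le).trans b1)
  · rw [coeff_C_mul, coeff_map]
    exact (natDegree_mul_C_le _ _).trans a1
  · rw [ev_C_mul]
    have e1 : aeval (t₁ ⊗ₜ[k] (1 : E₂)) P = (aeval t₁ P) ⊗ₜ[k] (1 : E₂) :=
      Polynomial.aeval_algHom_apply
        (Algebra.TensorProduct.includeLeft : E₁ →ₐ[k] E₁ ⊗[k] E₂) t₁ P
    have e2 : aeval ((1 : E₁) ⊗ₜ[k] t₂) Q = (1 : E₁) ⊗ₜ[k] (aeval t₂ Q) :=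
      Polynomial.aeval_algHom_apply
        (Algebra.TensorProduct.includeRight : E₂ →ₐ[k] E₁ ⊗[k] E₂) t₂ Q
    rw [e1, e2, Algebra.TensorProduct.tmul_mul_tmul, mul_one, one_mul, ← a2, ← b2,
      Algebra.TensorProduct.tmul_mul_tmul, mul_comm v, mul_comm w]

theorem ev_map {A B : Type u} [CommRing A] [Algebra k A] [CommRing B] [Algebra k B]
    (f : A →ₐ[k] B) (F : k[X][X]) (x y : A) : f (ev F x y) = ev F (f x) (f y) := by
  unfold ev
  rw [← AlgHom.coe_toRingHom, hom_eval₂]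
  congr 1
  ext c
  · simp
  · simp

end two

theorem t_tenP (h1 : S_desc.{u}) : S_tenP.{u} := by
  intro k E Λ _ _ _ _ _ _ _ t s G _ hA hG pp S₀ a b l r _ _ x hx
  have h2 := t_ratp k E Λ t s G hA hG pp S₀
  have hcE : CharP E l := charE k E l
  set R := RR hA pp G S₀ with hR
  set Rq := frS k l r R with hRq
  -- stability of the powers
  have hRqs : ∀ g ∈ G, ∀ y ∈ Rq.toSubmodule, g y ∈ Rq.toSubmodule := by
    rintro g hg _ ⟨y, hy, rfl⟩
    exact ⟨g y, RR_stable hA pp hg hy, (map_pow g y _).symm⟩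
  set N : E ⊗[k] E := ∏ g : G, ∏ h : G, bd a b
    (fun l' => ((g : E ≃ₐ[k] E) (x l')) ⊗ₜ[k] (1 : E))
    (fun l' => (1 : E) ⊗ₜ[k] (((h : E ≃ₐ[k] E) (x l')) ^ l ^ r)) with hN
  -- the element comes from `R ⊗ Rq`
  let ψ : R ⊗[k] Rq →ₐ[k] E ⊗[k] E := Algebra.TensorProduct.map R.val Rq.val
  have hrange : ∃ w : R ⊗[k] Rq, ψ w = N := by
    refine ⟨∏ g : G, ∏ h : G, bd a b
      (fun l' => (⟨(g : E ≃ₐ[k] E) (x l'), RR_stable hA pp g.2 (hx l')⟩ : R) ⊗ₜ[k] (1 : Rq))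
      (fun l' => (1 : R) ⊗ₜ[k] (⟨((h : E ≃ₐ[k] E) (x l')) ^ l ^ r, (h : E ≃ₐ[k] E) (x l'),
        RR_stable hA pp h.2 (hx l'), rfl⟩ : Rq)), ?_⟩
    rw [hN, map_prod]
    refine prod_congr rfl fun g _ => ?_
    rw [map_prod]
    refine prod_congr rfl fun h _ => ?_
    exact bd_map (ψ : R ⊗[k] Rq →+* E ⊗[k] E) a b _ _
  have hspan : N ∈ Submodule.span k {y : E ⊗[k] E | ∃ v ∈ R.toSubmodule, ∃ w ∈ Rq.toSubmodule,
      y = v ⊗ₜ[k] w} := by
    obtain ⟨w, hw⟩ := hrange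
    rw [← hw]
    clear hw
    induction w using TensorProduct.induction_on with
    | zero => rw [map_zero]; exact Submodule.zero_mem _
    | tmul v w => exact Submodule.subset_span ⟨v, v.2, w, w.2, rfl⟩
    | add y z hy hz => rw [map_add]; exact Submodule.add_mem _ hy hz
  have hinv : ∀ g ∈ G, ∀ h ∈ G, Algebra.TensorProduct.map (g : E →ₐ[k] E) (h : E →ₐ[k] E) N = N := by
    intro g' hg' h' hh'
    rw [hN, map_prod]
    refine Fintype.prod_equiv (Equiv.mulLeft (⟨g', hg'⟩ : G)) _ _ fun g => ?_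
    rw [map_prod]
    refine Fintype.prod_equiv (Equiv.mulLeft (⟨h', hh'⟩ : G)) _ _ fun h => ?_
    have := bd_map (Algebra.TensorProduct.map (g' : E →ₐ[k] E) (h' : E →ₐ[k] E) :
        E ⊗[k] E →+* E ⊗[k] E) a b
      (fun l' => ((g : E ≃ₐ[k] E) (x l')) ⊗ₜ[k] (1 : E))
      (fun l' => (1 : E) ⊗ₜ[k] (((h : E ≃ₐ[k] E) (x l')) ^ l ^ r))
    refine Eq.trans this ?_
    congr 1
    · funext l'
      simp
    · funext l'
      simp
  have hd := h1 k E G R.toSubmodule Rq.toSubmodule (fun g hg y hy => RR_stable hA pp hg hy)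
    hRqs N hspan hinv
  -- lift to `E ⊗ E ^ q`
  set T := frS k l r (⊤ : Subalgebra k E) with hT
  let j : E ⊗[k] T →ₐ[k] E ⊗[k] E := Algebra.TensorProduct.map (AlgHom.id k E) T.val
  have hj : Function.Injective j := by
    have h3 := Module.Flat.lTensor_preserves_injective_linearMap (M := E) T.val.toLinearMap
      Subtype.val_injective
    exact h3
  set N' : E ⊗[k] T := ∏ g : G, ∏ h : G, bd a b
    (fun l' => ((g : E ≃ₐ[k] E) (x l')) ⊗ₜ[k] (1 : T))
    (fun l' => (1 : E) ⊗ₜ[k] (frE k E l r ((h : E ≃ₐ[k] E) (x l')))) with hN'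
  have hjN : j N' = N := by
    rw [hN', hN, map_prod]
    refine prod_congr rfl fun g _ => ?_
    rw [map_prod]
    refine prod_congr rfl fun h _ => ?_
    exact bd_map (j : E ⊗[k] T →+* E ⊗[k] E) a b _ _
  have hd' : N' ∈ Submodule.span k {y : E ⊗[k] T | ∃ v ∈ R.toSubmodule, (∀ g ∈ G, g v = v) ∧
      ∃ w : E, w ∈ R ∧ (∀ g ∈ G, g w = w) ∧ y = v ⊗ₜ[k] (frE k E l r w)} := by
    have h3 : N ∈ (Submodule.span k {y : E ⊗[k] T | ∃ v ∈ R.toSubmodule, (∀ g ∈ G, g v = v) ∧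
      ∃ w : E, w ∈ R ∧ (∀ g ∈ G, g w = w) ∧ y = v ⊗ₜ[k] (frE k E l r w)}).map j.toLinearMap := by
      refine Submodule.span_le.2 ?_ hd
      rintro _ ⟨v, hv, hv', w, ⟨w', hw', rfl⟩, hw2, rfl⟩
      refine ⟨v ⊗ₜ[k] (frE k E l r w'), Submodule.subset_span ⟨v, hv, hv', w', hw', ?_, rfl⟩, rfl⟩
      intro g hg
      have h4 := hw2 g hg
      rw [map_pow] at h4
      exact pw_inj l r hcE h4
    obtain ⟨z, hz, hz'⟩ := h3
    have h5 : z = N' := hj (by rw [hjN]; exact hz')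
    rwa [← h5]
  have hgd : Gd2 t (frE k E l r t) (∏ t₀ ∈ S₀, (X - C t₀)) (∏ t₀ ∈ S₀, (X - C (t₀ ^ l ^ r)))
      S₀.card N' := by
    clear_value N'
    clear hN hrange hspan hinv hjN hN'
    induction hd' using Submodule.span_induction with
    | mem z hz =>
      obtain ⟨v, hv, hv', w, hw, hw', rfl⟩ := hz
      refine Gd2_tmul (h2 v hv' hv) ?_
      obtain ⟨M₀, h6⟩ := h2 w hw' hw
      refine ⟨M₀, fun M hM => ?_⟩
      obtain ⟨P, hP1, hP2⟩ := h6 M hM
      have hek : ExpChar k l := ExpChar.prime (Fact.out)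
      refine ⟨P.map (iterateFrobenius k l r), natDegree_map_le.trans hP1, ?_⟩
      -- apply the isomorphism
      have e1 : ∀ Q : k[X], frE k E l r (aeval t Q) =
          aeval (frE k E l r t) (Q.map (iterateFrobenius k l r)) := by
        intro Q
        rw [aeval_def, aeval_def, eval₂_map, ← RingEquiv.coe_toRingHom, hom_eval₂]
        congr 1
        ext c
        change (algebraMap k E c) ^ l ^ r = algebraMap k E (iterateFrobenius k l r c)
        rw [iterateFrobenius_def, map_pow]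
      have e2 : (∏ t₀ ∈ S₀, (X - C t₀) : k[X]).map (iterateFrobenius k l r) =
          ∏ t₀ ∈ S₀, (X - C (t₀ ^ l ^ r)) := by
        rw [Polynomial.map_prod]
        refine prod_congr rfl fun t₀ _ => ?_
        rw [Polynomial.map_sub, map_X, map_C, iterateFrobenius_def]
      rw [← e1, ← hP2, map_mul, map_pow, e1, e2]
    | zero => exact Gd2_zero _ _ _
    | add y z _ _ hy hz => exact Gd2_add hy hz
    | smul c y _ hy => exact Gd2_smul c hy
  obtain ⟨M₀, hgd⟩ := hgd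
  refine ⟨M₀, fun M hM => ?_⟩
  obtain ⟨F, hF1, hF2, hF3⟩ := hgd M hM
  refine ⟨F, hF1, hF2, ?_⟩
  intro A _ _ α β hβ
  let Φ : E ⊗[k] T →ₐ[k] A := Algebra.TensorProduct.productMap α (bet l r β hβ)
  have h7 := congrArg Φ hF3
  rw [ev_map, map_mul] at h7
  have e3 : Φ (t ⊗ₜ[k] (1 : T)) = α t := by
    simp [Φ]
  have e4 : Φ ((1 : E) ⊗ₜ[k] frE k E l r t) = β t := by
    rw [Algebra.TensorProduct.productMap_apply_tmul, map_one, one_mul]
    exact bet_frE l r β hβ t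
  have e5 : Φ ((aeval t (∏ t₀ ∈ S₀, (X - C t₀)) ^ M) ⊗ₜ[k]
      (aeval (frE k E l r t) (∏ t₀ ∈ S₀, (X - C (t₀ ^ l ^ r))) ^ M)) =
      (∏ t₀ ∈ S₀, (α t - algebraMap k A t₀)) ^ M *
          (∏ t₀ ∈ S₀, (β t - algebraMap k A (t₀ ^ l ^ r))) ^ M := by
    rw [Algebra.TensorProduct.productMap_apply_tmul, map_pow, map_pow, ← aeval_algHom_apply,
      ← aeval_algHom_apply, bet_frE]
    simp [map_prod]
  have e6 : Φ N' = ∏ g : G, ∏ h : G, bd a b (fun i => α ((g : E ≃ₐ[k] E) (x i)))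
            (fun i => β ((h : E ≃ₐ[k] E) (x i))) := by
    rw [hN', map_prod]
    refine prod_congr rfl fun g _ => ?_
    rw [map_prod]
    refine prod_congr rfl fun h _ => ?_
    refine (bd_map (Φ : E ⊗[k] T →+* A) a b _ _).trans ?_
    congr 1
    · funext i
      simp [Φ]
    · funext i
      refine (Algebra.TensorProduct.productMap_apply_tmul _ _ _ _).trans ?_
      rw [map_one, one_mul]
      exact bet_frE l r β hβ _
  rw [e3, e4, e5, e6] at h7
  exact h7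

end Pool.Agent.Q174.SP
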